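import Pool.Agent.H14.KB.R4
import Pool.Agent.H19.KB.R2

/-!
# Bridge, ring part 5: the residue maps and the entries of the Gersten complex
-/

namespace Pool.Agent.H14.KB

open CategoryTheory AlgebraicGeometry
open Pool.Agent.H15.KS
open Pool.Agent.H62.MK (MilnorK)

universe u

noncomputable section

/-- The residue map. -/
theorem residue_eq {O F : Type u} [CommRing O] [IsLocalRing O] [Field F] (φ : O →+* F) (n : ℕ) :
    residue φ n = AddCommGrpCat.ofHom (Pool.Agent.H17.KW.resOf φ n) :=
  H19.KB.residue_eq φ n (fun V _ => tame_val V n) (fun ψ => norm_eq ψ n)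

/-- The entries of the Gersten complex. -/
theorem entry_eq (X : Scheme.{u}) (v w : X) (n : ℕ) :
    entry X v w n = AddCommGrpCat.ofHom (Pool.Agent.H17.KW.entry (X := X) v w n) :=
  H19.KB.entry_eq X v w n (fun V _ => tame_val V n) (fun ψ => norm_eq ψ n)

end

end Pool.Agent.H14.KB
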