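import Pool.Agent.H15.KS.Defs
import Pool.Agent.H62.MK.Tame

/-!
# Bridge, ring part 1: functoriality and tame symbols
-/

namespace Pool.Agent.H14.KB

open CategoryTheory Function
open Pool.Agent.H15.KS
open Pool.Agent.H62.MK (MilnorK DV)

universe u v

noncomputable section

/-- A homomorphism of Milnor K-groups as a morphism. -/
abbrev hm {R S : Type u} [CommRing R] [CommRing S] {m n : ℕ} (φ : MilnorK R m →+ MilnorK S n) :
    MK R m ⟶ MK S n := AddCommGrpCat.ofHom (X := MilnorK R m) (Y := MilnorK S n) φ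

theorem ap_hm {R S : Type u} [CommRing R] [CommRing S] {m n : ℕ}
    (φ : MilnorK R m →+ MilnorK S n) (x : MilnorK R m) : ap (hm φ) x = φ x := rfl

theorem sy_eq {R : Type u} [CommRing R] {n : ℕ} (a : Fin n → Rˣ) :
    (sy a : MK R n) = (H62.MK.sym a : MilnorK R n) := rfl

theorem the_eq {A B : AddCommGrpCat.{u}} {P : (A ⟶ B) → Prop} {g : A ⟶ B} (hg : P g)
    (huniq : ∀ g', P g' → g' = g) : the P = g := huniq _ (the_spec ⟨g, hg⟩)

theorem mkMap_eq {R S : Type u} [CommRing R] [CommRing S] (f : R →+* S) (n : ℕ) :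
    mkMap f n = hm (H62.MK.map f n) := by
  refine MK_ext fun a => ?_
  rw [mkMap_sy]
  exact (H62.MK.map_sym f a).symm

section multi

variable {F : Type u} [CommGroup F] {A : Type v} [AddCommGroup A] {m : ℕ}

/-- A function which is a homomorphism in every variable and vanishes if all entries lie in `S`
vanishes if all entries lie in the subgroup generated by `S`. -/
theorem multi_closure (G : (Fin m → F) → A)
    (hG : ∀ (a : Fin m → F) (i : Fin m) (x y : F),
      G (update a i (x * y)) = G (update a i x) + G (update a i y))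
    (S : Set F) (hS : ∀ a : Fin m → F, (∀ i, a i ∈ S) → G a = 0) (a : Fin m → F)
    (ha : ∀ i, a i ∈ Subgroup.closure S) : G a = 0 := by
  classical
  have key : ∀ s : Finset (Fin m), ∀ a : Fin m → F,
      (∀ i ∈ s, a i ∈ Subgroup.closure S) → (∀ i ∉ s, a i ∈ S) → G a = 0 := by
    intro s
    induction s using Finset.induction_on with
    | empty => exact fun a _ h => hS a fun i => h i (Finset.notMem_empty i)
    | insert i s hi ih =>
      intro a h1 h2
      have h3 : ∀ x ∈ Subgroup.closure S, G (update a i x) = 0 := by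
        intro x hx
        induction hx using Subgroup.closure_induction with
        | mem x hx =>
          refine ih _ (fun j hj => ?_) (fun j hj => ?_)
          · have hji : j ≠ i := fun h => hi (h ▸ hj)
            rw [update_of_ne hji]
            exact h1 j (Finset.mem_insert_of_mem hj)
          · by_cases hji : j = i
            · subst hji; rw [update_self]; exact hx
            · rw [update_of_ne hji]
              exact h2 j fun h => (Finset.mem_insert.1 h).elim hji hj
        | one =>
          have := hG a i 1 1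
          rw [mul_one] at this
          exact left_eq_add.1 this
        | mul x y _ _ hx hy => rw [hG, hx, hy, add_zero]
        | inv x _ hx =>
          have := hG a i x x⁻¹
          rw [mul_inv_cancel, hx, zero_add] at this
          rw [← this]
          have h4 := hG a i 1 1
          rw [mul_one] at h4
          exact left_eq_add.1 h4
      have := h3 (a i) (h1 i (Finset.mem_insert_self i s))
      rwa [update_eq_self] at this
  exact key Finset.univ a (fun i _ => ha i) (fun i hi => absurd (Finset.mem_univ i) hi)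

end multi

section tame

variable {R F κ : Type u} [CommRing R] [Field F] [Field κ] (j : R →+* F) (ρ : R →+* κ)
  (D : DV F κ) (n : ℕ)

include D in
theorem ord_of_unit (hj : ∀ y : R, ∃ h : j y ∈ D.ring, D.res ⟨j y, h⟩ = ρ y) (y : R) (u : Fˣ)
    (hy : j y = u) (hu : IsUnit (ρ y)) : D.ord u = 0 := by
  obtain ⟨h, hr⟩ := hj y
  have h1 : (u : F) ∈ D.ring := hy ▸ h
  have h2 : D.res ⟨u, h1⟩ = ρ y := by
    rw [← hr]
    congr 1
    exact Subtype.ext hy.symm
  have h3 := (D.mem_ring u).1 h1
  have h4 : ¬ 0 < D.ord u := fun h5 => by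
    rw [← D.res_eq_zero u h1, h2] at h5
    exact hu.ne_zero h5
  omega

include D in
theorem ures_of_unit (hj : ∀ y : R, ∃ h : j y ∈ D.ring, D.res ⟨j y, h⟩ = ρ y) (y : R) (u : Fˣ)
    (b : κˣ) (hy : j y = u) (hb : ρ y = b) : D.ures u = b := by
  have h0 := ord_of_unit j ρ D hj y u hy (hb ▸ b.isUnit)
  obtain ⟨h, hr⟩ := hj y
  have h1 : (u : F) ∈ D.ring := hy ▸ h
  have h2 : D.res ⟨u, h1⟩ = ρ y := by
    rw [← hr]
    congr 1
    exact Subtype.ext hy.symm
  rw [D.ures_of_ord_eq_zero u h0]
  apply Units.ext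
  rw [← hb, ← h2]
  rfl

/-- The general comparison of tame symbols. -/
theorem tame_eq (hj : ∀ y : R, ∃ h : j y ∈ D.ring, D.res ⟨j y, h⟩ = ρ y)
    (hx : ∃ x : R, RingHom.ker ρ = Ideal.span {x} ∧ ∃ t : Fˣ, j x = t ∧ D.ord t = 1)
    (hgen : ∀ u : Fˣ, D.ord u = 0 →
      u ∈ Subgroup.closure {v : Fˣ | ∃ y : R, j y = v ∧ IsUnit (ρ y)}) :
    tame j ρ n = hm (H62.MK.tame D n) := by
  have hex : ∀ (x : R) (t : Fˣ) (f : Fin n → R) (a : Fin n → Fˣ) (b : Fin n → κˣ),
      RingHom.ker ρ = Ideal.span {x} → j x = t → (∀ i, j (f i) = a i ∧ ρ (f i) = b i) →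
        H62.MK.tame D n (H62.MK.sym (Fin.cons t a : Fin (n + 1) → Fˣ)) = H62.MK.sym b := by
    intro x t f a b hker hjx hf
    obtain ⟨x0, hx0, t0, hjx0, ht0⟩ := hx
    have hord : D.ord t = 1 := by
      have h1 : Ideal.span {x} = Ideal.span {x0} := hker.symm.trans hx0
      have h2 : x ∈ Ideal.span {x0} := h1 ▸ Ideal.mem_span_singleton_self x
      have h3 : x0 ∈ Ideal.span {x} := h1.symm ▸ Ideal.mem_span_singleton_self x0
      obtain ⟨r, hr⟩ := Ideal.mem_span_singleton.1 h2
      obtain ⟨s, hs⟩ := Ideal.mem_span_singleton.1 h3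
      have key : ∀ (r : R) (t t0 : Fˣ), (t : F) = t0 * j r → D.ord t0 ≤ D.ord t := by
        intro r t t0 h
        have hr0 : j r ≠ 0 := by
          intro h0
          rw [h0, mul_zero] at h
          exact t.ne_zero h
        have h4 : t = t0 * Units.mk0 (j r) hr0 := Units.ext h
        have h5 : 0 ≤ D.ord (Units.mk0 (j r) hr0) := (D.mem_ring _).1 (hj r).1
        rw [h4, D.ord_mul]
        omega
      have h6 := key r t t0 (by rw [← hjx, ← hjx0, hr, map_mul])
      have h7 := key s t0 t (by rw [← hjx, ← hjx0, ← map_mul, ← hs])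
      omega
    rw [H62.MK.sym_cons, H62.MK.tame_cup_sym_units D n t a
      (fun i => ord_of_unit j ρ D hj (f i) (a i) (hf i).1 ((hf i).2 ▸ (b i).isUnit)), hord,
      one_smul]
    congr 1
    funext i
    exact ures_of_unit j ρ D hj (f i) (a i) (b i) (hf i).1 (hf i).2
  refine the_eq ⟨hex, ?_⟩ ?_
  · intro a ha
    refine H62.MK.tame_sym_units D n a fun i => ?_
    obtain ⟨y, hy, hu⟩ := ha i
    exact ord_of_unit j ρ D hj y (a i) hy hu
  · rintro g ⟨h1, h2⟩
    obtain ⟨x0, hx0, t0, hjx0, ht0⟩ := hx
    let φ : MilnorK F (n + 1) →+ MilnorK κ n := g.hom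
    have hφ : φ = H62.MK.tame D n := by
      refine AddMonoidHom.ext fun x => ?_
      refine H62.MK.MilnorK.unit_induction D t0 ht0 n
        (p := fun x => φ x = H62.MK.tame D n x) x ?_ ?_ ?_ ?_ ?_
      · rw [map_zero, map_zero]
      · intro u hu
        rw [H62.MK.tame_sym_units D n u hu]
        refine multi_closure (fun a => φ (H62.MK.sym a)) ?_
          {v : Fˣ | ∃ y : R, j y = v ∧ IsUnit (ρ y)} ?_ u (fun i => hgen _ (hu i))
        · intro a i x y
          rw [H62.MK.sym_update_mul, map_add]
        · exact h2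
      · intro u hu
        rw [← sub_eq_zero]
        refine multi_closure (fun a => φ (H62.MK.cup t0 (H62.MK.sym a)) -
          H62.MK.tame D n (H62.MK.cup t0 (H62.MK.sym a))) ?_
          {v : Fˣ | ∃ y : R, j y = v ∧ IsUnit (ρ y)} ?_ u (fun i => hgen _ (hu i))
        · intro a i x y
          rw [H62.MK.sym_update_mul, map_add, map_add, map_add]
          abel
        · intro a ha
          choose f hf hfu using ha
          have e1 := h1 x0 t0 f a (fun i => (hfu i).unit) hx0 hjx0 (fun i => ⟨hf i, rfl⟩)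
          have e2 := hex x0 t0 f a (fun i => (hfu i).unit) hx0 hjx0 (fun i => ⟨hf i, rfl⟩)
          rw [H62.MK.cup_sym]
          exact sub_eq_zero.2 (e1.trans e2.symm)
      · intro x hx; rw [map_neg, map_neg, hx]
      · intro x y hx hy; rw [map_add, map_add, hx, hy]
    refine AddCommGrpCat.hom_ext ?_
    exact hφ

end tame

end

end Pool.Agent.H14.KB
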