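import Pool.Agent.H14.KB.R1
import Pool.Agent.H62.MK.Defs3

/-!
# Bridge, ring part 2: the tame symbols at the places
-/

namespace Pool.Agent.H14.KB

open CategoryTheory Function IsDedekindDomain
open Pool.Agent.H15.KS
open Pool.Agent.H62.MK (MilnorK DV placeDV)

universe u v

noncomputable section

section comap

variable {F K κ : Type u} [Field F] [Field K] [Field κ] (σ : F ≃+* K) (D : DV K κ) (n : ℕ)

/-- The pull-back of a discrete valuation under an isomorphism. -/
def comapDV : DV F κ where
  ord a := D.ord (Units.map (σ : F →+* K).toMonoidHom a)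
  ord_mul a b := by rw [map_mul, D.ord_mul]
  ord_surj m := by
    obtain ⟨b, hb⟩ := D.ord_surj m
    refine ⟨Units.map (σ.symm : K →+* F).toMonoidHom b, ?_⟩
    have e : Units.map (σ : F →+* K).toMonoidHom (Units.map (σ.symm : K →+* F).toMonoidHom b)
        = b := Units.ext (σ.apply_symm_apply (b : K))
    exact (congrArg D.ord e).trans hb
  ring := D.ring.comap (σ : F →+* K)
  mem_ring a := D.mem_ring (Units.map (σ : F →+* K).toMonoidHom a)
  res := D.res.comp (((σ : F →+* K).comp (D.ring.comap (σ : F →+* K)).subtype).codRestrict D.ring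
    (fun a => a.2))
  res_surj c := by
    obtain ⟨⟨b, hb⟩, rfl⟩ := D.res_surj c
    refine ⟨⟨σ.symm b, ?_⟩, ?_⟩
    · show σ (σ.symm b) ∈ D.ring
      rwa [σ.apply_symm_apply]
    · show D.res ⟨σ (σ.symm b), _⟩ = _
      congr 1
      exact Subtype.ext (σ.apply_symm_apply b)
  res_eq_zero a h := D.res_eq_zero (Units.map (σ : F →+* K).toMonoidHom a) h

theorem comapDV_ures (u : Fˣ) (hu : (comapDV σ D).ord u = 0) :
    (comapDV σ D).ures u = D.ures (Units.map (σ : F →+* K).toMonoidHom u) := by
  rw [DV.ures_of_ord_eq_zero _ u hu,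
    DV.ures_of_ord_eq_zero D (Units.map (σ : F →+* K).toMonoidHom u) hu]
  apply Units.ext
  rfl

theorem tame_comapDV : H62.MK.tame (comapDV σ D) n
    = (H62.MK.tame D n).comp (H62.MK.map (σ : F →+* K) (n + 1)) := by
  obtain ⟨ϖ, hϖ⟩ := (comapDV σ D).ord_surj 1
  refine AddMonoidHom.ext fun x => ?_
  refine H62.MK.MilnorK.unit_induction (comapDV σ D) ϖ hϖ n
    (p := fun x => H62.MK.tame (comapDV σ D) n x
      = (H62.MK.tame D n).comp (H62.MK.map (σ : F →+* K) (n + 1)) x) x ?_ ?_ ?_ ?_ ?_
  · rw [map_zero, map_zero]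
  · intro u hu
    rw [H62.MK.tame_sym_units _ n u hu, AddMonoidHom.comp_apply, H62.MK.map_sym,
      H62.MK.tame_sym_units D n _ hu]
  · intro u hu
    rw [H62.MK.tame_cup_sym_units _ n ϖ u hu, AddMonoidHom.comp_apply, H62.MK.map_cup,
      H62.MK.map_sym, H62.MK.tame_cup_sym_units D n _ _ hu]
    have e : (fun i => (comapDV σ D).ures (u i)) =
        fun i => D.ures (Units.map (σ : F →+* K).toMonoidHom (u i)) :=
      funext fun i => comapDV_ures σ D (u i) (hu i)
    rw [e]
    rfl
  · intro x hx; rw [map_neg, map_neg, hx]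
  · intro x y hx hy; rw [map_add, map_add, hx, hy]

end comap

section place

variable {R K κ F : Type u} [CommRing R] [IsDedekindDomain R] [Field K] [Algebra R K]
  [IsFractionRing R K] [Field κ] [Field F]

theorem tame_place (v : HeightOneSpectrum R) (ρ : R →+* κ) (hρ : Surjective ρ)
    (hker : RingHom.ker ρ = v.asIdeal) (x : R) (hx : v.asIdeal = Ideal.span {x})
    (σ : F ≃+* K) (j : R →+* F) (hj : ∀ y, σ (j y) = algebraMap R K y) (n : ℕ) :
    tame j ρ n = hm ((H62.MK.tame (placeDV (K := K) v ρ hρ hker) n).comp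
      (H62.MK.map (σ : F →+* K) (n + 1))) := by
  rw [← tame_comapDV]
  have hinj : Injective (algebraMap R K) := IsFractionRing.injective R K
  have hjinj : Injective j := fun a b h => hinj (by rw [← hj, ← hj, h])
  refine tame_eq j ρ (comapDV σ (placeDV (K := K) v ρ hρ hker)) n ?_ ?_ ?_
  · intro y
    have h : algebraMap R K y ∈ (placeDV (K := K) v ρ hρ hker).ring :=
      H62.MK.placeDV_mem v ρ hρ hker y
    have h' : σ (j y) ∈ (placeDV (K := K) v ρ hρ hker).ring := by rw [hj]; exact h
    refine ⟨h', ?_⟩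
    rw [← H62.MK.placeDV_res (K := K) v ρ hρ hker y h]
    exact congrArg (placeDV (K := K) v ρ hρ hker).res (Subtype.ext (hj y))
  · have hx0 : x ≠ 0 := by
      rintro rfl
      exact v.ne_bot (by rw [hx]; simp)
    have hj0 : j x ≠ 0 := fun h => hx0 (hjinj (by rw [h, map_zero]))
    refine ⟨x, hker.trans hx, Units.mk0 (j x) hj0, rfl, ?_⟩
    show (placeDV (K := K) v ρ hρ hker).ord (Units.map _ (Units.mk0 (j x) hj0)) = 1
    rw [H62.MK.placeDV_ord]
    have e : ((Units.map (σ : F →+* K).toMonoidHom (Units.mk0 (j x) hj0) : Kˣ) : K)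
        = algebraMap R K x := hj x
    rw [e, HeightOneSpectrum.valuation_of_algebraMap, v.intValuation_singleton hx0 hx]
    simp
  · intro u hu
    have hval : v.valuation K (σ (u : F)) = 1 := by
      have h0 : -WithZero.log (v.valuation K (σ (u : F))) = 0 := hu
      have h1 : v.valuation K (σ (u : F)) ≠ 0 := (Valuation.ne_zero_iff _).2
        (fun h => u.ne_zero ((map_eq_zero_iff σ σ.injective).1 h))
      rw [neg_eq_zero] at h0
      rw [← WithZero.exp_log h1, h0, WithZero.exp_zero]
    obtain ⟨m, d, hnd⟩ := v.exists_primeCompl_mul_eq_of_integer (K := K) (σ (u : F)) hval.le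
    have hd : v.valuation K (algebraMap R K d) = 1 := by
      rw [HeightOneSpectrum.valuation_of_algebraMap]
      exact (v.intValuation_eq_one_iff_mem_primeCompl d).2 d.2
    have hm : v.valuation K (algebraMap R K m) = 1 := by
      rw [← hnd, map_mul, hval, hd, mul_one]
    have hunit : ∀ y : R, v.valuation K (algebraMap R K y) = 1 → IsUnit (ρ y) := by
      intro y hy
      rw [HeightOneSpectrum.valuation_of_algebraMap] at hy
      refine IsUnit.mk0 _ fun h0 => ?_
      have h1 : y ∈ v.asIdeal := hker ▸ (RingHom.mem_ker.2 h0)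
      exact (HeightOneSpectrum.intValuation_lt_one_iff_mem v y).2 h1 |>.ne hy
    have hne : ∀ y : R, v.valuation K (algebraMap R K y) = 1 → j y ≠ 0 := by
      intro y hy h0
      have h1 : y = 0 := hjinj (by rw [h0, map_zero])
      rw [h1, map_zero, map_zero] at hy
      exact zero_ne_one hy
    have hu2 : u = Units.mk0 (j m) (hne m hm) * (Units.mk0 (j d) (hne d hd))⁻¹ := by
      rw [eq_mul_inv_iff_mul_eq]
      apply Units.ext
      apply σ.injective
      show σ ((u : F) * j d) = σ (j m)
      rw [map_mul, hj, hj]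
      exact hnd
    rw [hu2]
    exact Subgroup.mul_mem _ (Subgroup.subset_closure ⟨m, rfl, hunit m hm⟩)
      (Subgroup.inv_mem _ (Subgroup.subset_closure ⟨d, rfl, hunit d hd⟩))

end place

end

end Pool.Agent.H14.KB
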