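import Pool.Agent.H14.KB.R2
import Pool.Agent.H14.KM.TA

/-!
# Bridge, ring part 3: the tame symbols and the Bass-Tate norm
-/

namespace Pool.Agent.H14.KB

open CategoryTheory Function IsDedekindDomain Polynomial
open Pool.Agent.H15.KS
open Pool.Agent.H62.MK (MilnorK DV placeDV valDV finPlace zeroPlace invSubst polyPrime)

universe u v

noncomputable section

theorem map_refl {F : Type u} [Field F] (n : ℕ) :
    H62.MK.map ((RingEquiv.refl F : F ≃+* F) : F →+* F) n = AddMonoidHom.id _ := by
  refine H62.MK.hom_ext fun a => ?_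
  rw [H62.MK.map_sym]
  rfl

theorem tame_place' {R K κ : Type u} [CommRing R] [IsDedekindDomain R] [Field K] [Algebra R K]
    [IsFractionRing R K] [Field κ] (v : HeightOneSpectrum R) (ρ : R →+* κ) (hρ : Surjective ρ)
    (hker : RingHom.ker ρ = v.asIdeal) (x : R) (hx : v.asIdeal = Ideal.span {x})
    (j : R →+* K) (hj : j = algebraMap R K) (n : ℕ) :
    tame j ρ n = hm (H62.MK.tame (placeDV (K := K) v ρ hρ hker) n) := by
  subst hj
  rw [tame_place v ρ hρ hker x hx (RingEquiv.refl K) (algebraMap R K) (fun _ => rfl) n]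
  rw [map_refl]

/-- The tame symbol of a discrete valuation ring. -/
theorem tame_val {F : Type u} [Field F] (V : ValuationSubring F) [IsDiscreteValuationRing V]
    (n : ℕ) : tame V.subtype (IsLocalRing.residue V) n = hm (H62.MK.tame (valDV V) n) := by
  obtain ⟨x, hx⟩ := (IsPrincipalIdealRing.principal
    (IsDiscreteValuationRing.maximalIdeal V).asIdeal).principal
  exact tame_place' _ _ _ _ x hx V.subtype rfl n

/-- The tame symbol at a finite place of `F(t)`. -/
theorem tame_at {F : Type u} [Field F] (P : F[X]) [Fact (Irreducible P)] (n : ℕ) :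
    tameAt P n = hm (H62.MK.tame (finPlace P) n) :=
  tame_place' (polyPrime P Fact.out) _ _ _ P rfl _ rfl n

theorem invSubst_alg {F : Type u} [Field F] (f : F[X]) :
    invSubst F (algebraMap F[X] (RatFunc F) f) =
      eval₂ (algebraMap F (RatFunc F)) (RatFunc.X⁻¹) f := by
  unfold invSubst
  rw [IsFractionRing.lift_algebraMap]
  rfl

theorem invSubst_comp (F : Type u) [Field F] :
    (invSubst F).comp (invSubst F) = RingHom.id (RatFunc F) := by
  refine IsLocalization.ringHom_ext (nonZeroDivisors F[X]) ?_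
  refine Polynomial.ringHom_ext (fun c => ?_) ?_
  · show invSubst F (invSubst F (algebraMap F[X] (RatFunc F) (C c))) =
      algebraMap F[X] (RatFunc F) (C c)
    rw [invSubst_alg, eval₂_C]
    have h : algebraMap F (RatFunc F) c = algebraMap F[X] (RatFunc F) (C c) := rfl
    rw [h, invSubst_alg, eval₂_C]
    exact h
  · show invSubst F (invSubst F (algebraMap F[X] (RatFunc F) X)) =
      algebraMap F[X] (RatFunc F) X
    have h : algebraMap F[X] (RatFunc F) X = RatFunc.X := RatFunc.algebraMap_X
    rw [invSubst_alg, eval₂_X, map_inv₀, ← h, invSubst_alg, eval₂_X, inv_inv, h]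

/-- The tame symbol at infinity of `F(t)`. -/
theorem tame_inf (F : Type u) [Field F] (n : ℕ) :
    tameInf F n = hm (H62.MK.tameInf F n) := by
  have h := tame_place (R := F[X]) (K := RatFunc F) (κ := F) (F := RatFunc F)
    (polyPrime (X : F[X]) irreducible_X) (Polynomial.evalRingHom 0) (fun c => ⟨C c, by simp⟩)
    (by
      ext r
      rw [RingHom.mem_ker]
      show eval 0 r = 0 ↔ r ∈ Ideal.span {X}
      rw [Ideal.mem_span_singleton, X_dvd_iff, coeff_zero_eq_eval_zero]) X rfl
    (RingEquiv.ofRingHom (invSubst F) (invSubst F) (invSubst_comp F) (invSubst_comp F))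
    (eval₂RingHom (algebraMap F (RatFunc F)) (RatFunc.X⁻¹))
    (fun y => by
      show invSubst F (eval₂ (algebraMap F (RatFunc F)) (RatFunc.X⁻¹) y) = _
      rw [← invSubst_alg]
      exact RingHom.congr_fun (invSubst_comp F) (algebraMap F[X] (RatFunc F) y)) n
  exact h

/-- The Bass-Tate norm. -/
theorem btNorm_eq {F : Type u} [Field F] (P : F[X]) [hP : Fact (Irreducible P)] (hm' : P.Monic)
    (n : ℕ) : btNorm P n = hm (H62.MK.polyNorm P n) := by
  have key : ∀ a : MilnorK (RatFunc F) (n + 1),
      (∀ Q : F[X], Q.Monic → Irreducible Q → Q ≠ P → ap (tameAt Q n) a = 0) ↔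
        H62.MK.OnlyAt P n a := by
    intro a
    constructor
    · intro h Q hQ hQm hQP
      have h1 := h Q hQm hQ.out hQP
      rw [tame_at] at h1
      exact h1
    · intro h Q hQm hQ hQP
      let _ : Fact (Irreducible Q) := ⟨hQ⟩
      rw [tame_at]
      exact h Q hQm hQP
  refine the_eq ?_ ?_
  · intro a ha
    rw [tame_at, tame_inf]
    exact H14.KM.pf_PN F P hm' n a ((key a).1 ha)
  · intro g hg
    refine AddCommGrpCat.hom_ext (AddMonoidHom.ext fun b => ?_)
    obtain ⟨a, ha, rfl⟩ := H14.KM.pf_EX F P hm' n b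
    have h1 := hg a ((key a).2 ha)
    rw [tame_at, tame_inf] at h1
    exact h1.trans (H14.KM.pf_PN F P hm' n a ha).symm

end

end Pool.Agent.H14.KB
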