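import Pool.Agent.H14.KB.R3

/-!
# Bridge, ring part 4: the norms
-/

namespace Pool.Agent.H14.KB

open CategoryTheory Function Polynomial
open Pool.Agent.H15.KS
open Pool.Agent.H62.MK (MilnorK)

universe u v

noncomputable section

theorem hm_zero {R S : Type u} [CommRing R] [CommRing S] {m n : ℕ} :
    hm (0 : MilnorK R m →+ MilnorK S n) = 0 := rfl

theorem hm_comp {R S T : Type u} [CommRing R] [CommRing S] [CommRing T] {m n k : ℕ}
    (φ : MilnorK R m →+ MilnorK S n) (ψ : MilnorK S n →+ MilnorK T k) :
    hm φ ≫ hm ψ = hm (ψ.comp φ) := rfl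

theorem map_equiv_symm {R S : Type u} [CommRing R] [CommRing S] (e : R →+* S) (f : S →+* R)
    (h : ∀ x, f (e x) = x) (n : ℕ) :
    (H62.MK.map f n).comp (H62.MK.map e n) = AddMonoidHom.id _ := by
  refine H62.MK.hom_ext fun a => ?_
  rw [AddMonoidHom.comp_apply, H62.MK.map_sym, H62.MK.map_sym, AddMonoidHom.id_apply]
  congr 1
  funext i
  exact Units.ext (h _)

/-- A morphism out of the Milnor K-group of an isomorphic ring. -/
theorem the_iso {R S T : Type u} [CommRing R] [CommRing S] [CommRing T] (e : R →+* S)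
    (f : S →+* R) (h2 : ∀ x, e (f x) = x) {n m : ℕ}
    (g : MK S n ⟶ MK T m) (φ : MilnorK R n →+ MilnorK T m) (hg : mkMap e n ≫ g = hm φ) :
    g = hm (φ.comp (H62.MK.map f n)) := by
  rw [← hm_comp, ← hg, mkMap_eq, ← Category.assoc, hm_comp, map_equiv_symm f e h2]
  exact (Category.id_comp g).symm

theorem iso_the {R S T : Type u} [CommRing R] [CommRing S] [CommRing T] (e : R →+* S)
    (f : S →+* R) (h1 : ∀ x, f (e x) = x) {n m : ℕ} (φ : MilnorK R n →+ MilnorK T m) :
    mkMap e n ≫ hm (φ.comp (H62.MK.map f n)) = hm φ := by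
  rw [mkMap_eq, hm_comp, AddMonoidHom.comp_assoc, map_equiv_symm e f h1, AddMonoidHom.comp_id]

theorem simpleNorm_eq (F : Type u) [Field F] {E : Type u} [Field E] [Algebra F E] (x : E)
    (n : ℕ) : simpleNorm F x n = hm (H62.MK.simpleNorm F x n) := by
  by_cases h : IsIntegral F x
  · let _ : Fact (Irreducible (minpoly F x)) := ⟨minpoly.irreducible h⟩
    have h1 : H62.MK.simpleNorm F x n = (H62.MK.polyNorm (minpoly F x) n).comp
      (H62.MK.map ((IntermediateField.adjoinRootEquivAdjoin F h).symm : _ ≃+* _).toRingHom n) := by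
      unfold H62.MK.simpleNorm
      rw [dif_pos h]
    rw [h1]
    refine the_eq ⟨h, ?_⟩ ?_
    · rw [btNorm_eq _ (minpoly.monic h)]
      exact iso_the _ _ (fun x => (IntermediateField.adjoinRootEquivAdjoin F h).symm_apply_apply x)
        _
    · rintro g ⟨h', hg⟩
      rw [btNorm_eq _ (minpoly.monic h)] at hg
      exact the_iso _ _ (fun x => (IntermediateField.adjoinRootEquivAdjoin F h).apply_symm_apply x)
        g _ hg
  · have h1 : H62.MK.simpleNorm F x n = 0 := by
      unfold H62.MK.simpleNorm
      rw [dif_neg h]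
    rw [h1, hm_zero]
    unfold simpleNorm the
    rw [dif_neg]
    rintro ⟨g, h', _⟩
    exact h h'

theorem towerNorm_eq {E : Type u} [Field E] (n : ℕ) (l : List E) :
    ∀ (F : Type u) [Field F] [Algebra F E], towerNorm n l F = hm (H62.MK.towerNorm n l F) := by
  induction l with
  | nil =>
    intro F _ _
    show the _ = hm (H62.MK.towerNorm n [] F)
    by_cases h : Bijective (algebraMap F E)
    · have h1 : H62.MK.towerNorm (E := E) n [] F =
        H62.MK.map (RingEquiv.ofBijective (algebraMap F E) h).symm.toRingHom n := by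
        rw [H62.MK.towerNorm, dif_pos h]
      rw [h1]
      refine the_eq ⟨h, ?_⟩ ?_
      · rw [mkMap_eq]
        refine congrArg hm (map_equiv_symm (algebraMap F E)
          (RingEquiv.ofBijective (algebraMap F E) h).symm.toRingHom (fun x => ?_) n)
        exact (RingEquiv.ofBijective (algebraMap F E) h).symm_apply_apply x
      · rintro g ⟨_, hg⟩
        exact the_iso (algebraMap F E) (RingEquiv.ofBijective (algebraMap F E) h).symm.toRingHom
          (fun x => (RingEquiv.ofBijective (algebraMap F E) h).apply_symm_apply x) g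
          (AddMonoidHom.id _) hg
    · have h1 : H62.MK.towerNorm (E := E) n [] F = 0 := by
        rw [H62.MK.towerNorm, dif_neg h]
      rw [h1, hm_zero]
      unfold the
      rw [dif_neg]
      rintro ⟨g, h', _⟩
      exact h h'
  | cons x l ih =>
    intro F _ _
    have h1 : H62.MK.towerNorm n (x :: l) F = (H62.MK.simpleNorm F x n).comp
        (H62.MK.towerNorm n l (IntermediateField.adjoin F {x})) := by
      rw [H62.MK.towerNorm]
    rw [h1, ← hm_comp, ← ih, ← simpleNorm_eq]
    rfl

/-- The norm of a finite extension. -/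
theorem norm_eq {F E : Type u} [Field F] [Field E] (ψ : F →+* E) (n : ℕ) :
    Pool.Agent.H15.KS.norm ψ n = hm (H62.MK.normOf ψ n) := by
  let _ := ψ.toAlgebra
  unfold Pool.Agent.H15.KS.norm H62.MK.normOf H62.MK.norm
  by_cases h : FiniteDimensional F E
  · simp only [dif_pos h]
    exact towerNorm_eq n _ F
  · simp only [dif_neg h]
    rfl

end

end Pool.Agent.H14.KB
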